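import Mathlib
import Pool.Agent.MP_45e593_co.Cheb
import Pool.Agent.MP_45e593_co.Defs

section

open Polynomial NumberField

namespace Pool.Agent.MP_45e593_co

section ring
variable {R : Type*} [CommRing R]

theorem frob_all (σ : R →+* R) (ζ : R) (htop : Algebra.adjoin ℤ {ζ} = ⊤)
    (h : (2 : R) ∣ ζ ^ 2 - σ ζ) (x : R) : (2 : R) ∣ x ^ 2 - σ x := by
  have hx : x ∈ Algebra.adjoin ℤ {ζ} := htop ▸ Algebra.mem_top
  induction hx using Algebra.adjoin_induction with
  | mem y hy => rwa [Set.mem_singleton_iff.1 hy]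
  | algebraMap n =>
    obtain ⟨c, hc⟩ := Int.even_mul_pred_self n
    refine ⟨c, ?_⟩
    have := congrArg (Int.cast : ℤ → R) hc
    simp only [eq_intCast, map_intCast]
    push_cast at this
    linear_combination this
  | add y z _ _ hy hz =>
    obtain ⟨a, ha⟩ := hy
    obtain ⟨b, hb⟩ := hz
    exact ⟨a + b + y * z, by rw [map_add]; linear_combination ha + hb⟩
  | mul y z _ _ hy hz =>
    obtain ⟨a, ha⟩ := hy
    obtain ⟨b, hb⟩ := hz
    exact ⟨y ^ 2 * b + σ z * a, by rw [map_mul]; linear_combination y ^ 2 * hb + σ z * ha⟩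

theorem neg_all (τ : R →+* R) (ζ : R) (htop : Algebra.adjoin ℤ {ζ} = ⊤)
    (h : (2 : R) ∣ ζ - τ ζ) (x : R) : (2 : R) ∣ x - τ x := by
  have hx : x ∈ Algebra.adjoin ℤ {ζ} := htop ▸ Algebra.mem_top
  induction hx using Algebra.adjoin_induction with
  | mem y hy => rwa [Set.mem_singleton_iff.1 hy]
  | algebraMap n => simp
  | add y z _ _ hy hz =>
    obtain ⟨a, ha⟩ := hy
    obtain ⟨b, hb⟩ := hz
    exact ⟨a + b, by rw [map_add]; linear_combination ha + hb⟩
  | mul y z _ _ hy hz =>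
    obtain ⟨a, ha⟩ := hy
    obtain ⟨b, hb⟩ := hz
    exact ⟨y * b + τ z * a, by rw [map_mul]; linear_combination y * hb + τ z * ha⟩

theorem one_sub_dvd [IsDomain R] {ω : R} {l : ℕ} (h : ω ^ l = 1) (h1 : ω ≠ 1) :
    (ω - 1) ∣ (l : R) := by
  have h2 : ∑ i ∈ Finset.range l, ω ^ i = 0 := by
    have := mul_geom_sum ω l
    rw [h, sub_self] at this
    exact (mul_eq_zero.1 this).resolve_left (sub_ne_zero.2 h1)
  have h3 : (l : R) = -∑ i ∈ Finset.range l, (ω ^ i - 1) := by
    rw [Finset.sum_sub_distrib, h2]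
    simp
  rw [h3, dvd_neg]
  exact Finset.dvd_sum fun i _ => by simpa using sub_dvd_pow_sub_pow ω 1 i

theorem odd_case [IsDomain R] (hR : ∀ n : ℕ, Odd n → ¬ (2 : R) ∣ n) (h2 : (2 : R) ≠ 0)
    (σ : R ≃+* R) (θ θ' γ : R)
    (l : ℕ) (hl : Odd l) (hθ : θ ^ l = 1) (hθ' : θ * θ' = 1) (hσ : σ θ = θ ^ 2)
    (hγ : (2 : R) ∣ γ ^ 2 - σ γ) (m : ℤ) (hm : Odd m)
    (h : γ ^ 2 = m - (θ ^ 2 + θ' ^ 2) ∨ γ ^ 2 = m + (θ ^ 2 + θ' ^ 2)) : θ ^ 3 = 1 ∨ θ ^ 5 = 1 := by
  have hσ' : σ θ' = θ' ^ 2 := by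
    have h1 : σ θ * σ θ' = 1 := by rw [← map_mul, hθ', map_one]
    rw [hσ] at h1
    linear_combination θ' ^ 2 * h1 - σ θ' * (θ * θ' + 1) * hθ'
  obtain ⟨y, hy⟩ := hγ
  obtain ⟨c, hc⟩ := hm
  have hc' : (m : R) = 2 * c + 1 := by rw [hc]; push_cast; ring
  have e1 : ∃ z, σ (γ - 1 - (θ + θ')) = 2 * z := by
    simp only [map_sub, map_add, map_one, hσ, hσ']
    rcases h with h | h
    · exact ⟨c - y - (θ ^ 2 + θ' ^ 2), by linear_combination h - hy + hc'⟩
    · exact ⟨c - y, by linear_combination h - hy + hc'⟩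
  obtain ⟨z, hz⟩ := e1
  have e2 : γ = 1 + (θ + θ') + 2 * σ.symm z := by
    have := congrArg σ.symm hz
    rw [RingEquiv.symm_apply_apply, map_mul, map_ofNat] at this
    linear_combination this
  set u := σ.symm z
  have e3 : ∃ (d : ℤ) (v : R), (θ + θ') ^ 2 + (θ + θ') = d + 2 * v := by
    rcases h with h | h
    · refine ⟨c + 1, -(u * (1 + (θ + θ') + u)), mul_left_cancel₀ h2 ?_⟩
      rw [e2] at h
      push_cast
      linear_combination h + hc' + 2 * hθ'
    · have e4 : θ + θ' = c - 1 - 2 * (u * (1 + (θ + θ') + u)) := by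
        refine mul_left_cancel₀ h2 ?_
        rw [e2] at h
        linear_combination h + hc' - 2 * hθ'
      refine ⟨c * (c - 1), (u * (1 + (θ + θ') + u)) * (2 * (u * (1 + (θ + θ') + u)) - 2 * c + 1), ?_⟩
      push_cast
      linear_combination (θ + θ' + c - 2 * (u * (1 + (θ + θ') + u))) * e4
  obtain ⟨d, v, hd⟩ := e3
  obtain ⟨f, hf⟩ := Int.even_mul_pred_self d
  have hf' : (d : R) * (d - 1) = f + f := by exact_mod_cast congrArg (Int.cast : ℤ → R) hf
  have e5 : (2 : R) ∣ (θ ^ 5 - 1) * (θ ^ 3 - 1) := by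
    have a1 : (θ + θ') ^ 4 - (θ + θ') =
        2 * (f + 2 * d * v + 2 * v ^ 2 - v - (θ + θ') ^ 3) := by
      linear_combination ((θ + θ') ^ 2 + (θ + θ') + d + 2 * v - 1) * hd + hf'
    have a2 : (θ ^ 5 - 1) * (θ ^ 3 - 1) =
        θ ^ 4 * ((θ + θ') ^ 4 - (θ + θ')) - 2 * (2 * θ ^ 6 + 3 * θ ^ 4 + 2 * θ ^ 2) := by
      linear_combination (-(4 * θ ^ 6) - 6 * θ ^ 4 * (θ * θ' + 1) -
        4 * θ ^ 2 * ((θ * θ') ^ 2 + θ * θ' + 1) -
        ((θ * θ') ^ 3 + (θ * θ') ^ 2 + θ * θ' + 1) + θ ^ 3) * hθ'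
    rw [a2, a1]
    exact Dvd.dvd.sub (Dvd.dvd.mul_left (dvd_mul_right _ _) _) (dvd_mul_right _ _)
  by_contra hn
  rw [not_or] at hn
  have b1 := one_sub_dvd (ω := θ ^ 5) (l := l) (by rw [← pow_mul, mul_comm, pow_mul, hθ, one_pow])
    hn.2
  have b2 := one_sub_dvd (ω := θ ^ 3) (l := l) (by rw [← pow_mul, mul_comm, pow_mul, hθ, one_pow])
    hn.1
  exact hR (l * l) (hl.mul hl) (by push_cast; exact e5.trans (mul_dvd_mul b1 b2))

end ring

section field
variable {K : Type*} [Field K] [NumberField K]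

theorem odd_not_dvd (n : ℕ) (hn : Odd n) : ¬ (2 : 𝓞 K) ∣ n := by
  rintro ⟨c, hc⟩
  have h1 : (algebraMap ℚ K ((n : ℚ) / 2)) = (c : K) := by
    have := congrArg (algebraMap (𝓞 K) K) hc
    simp only [map_natCast, map_mul, map_ofNat] at this
    rw [map_div₀, map_natCast, map_ofNat, this]
    simp
  have h2 : IsIntegral ℤ ((n : ℚ) / 2) := by
    rw [← isIntegral_algebraMap_iff (algebraMap ℚ K).injective, h1]
    exact c.isIntegral_coe
  obtain ⟨y, hy⟩ := IsIntegrallyClosed.isIntegral_iff.1 h2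
  have h3 : (n : ℤ) = 2 * y := by
    have : (n : ℚ) = 2 * y := by
      simp only [eq_intCast] at hy
      linarith
    exact_mod_cast this
  obtain ⟨k, hk⟩ := hn
  omega

theorem exists_aut {l : ℕ} [NeZero l] [IsCyclotomicExtension {l} ℚ K] {ζ : K}
    (hζ : IsPrimitiveRoot ζ l) {a : ℕ} (ha : a.Coprime l) : ∃ σ : K ≃+* K, σ ζ = ζ ^ a := by
  have hirr : Irreducible (cyclotomic l ℚ) := cyclotomic.irreducible_rat (NeZero.pos l)
  refine ⟨((IsCyclotomicExtension.fromZetaAut hζ hirr).symm.trans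
    (IsCyclotomicExtension.fromZetaAut (hζ.pow_of_coprime a ha) hirr)).toRingEquiv, ?_⟩
  have h1 := IsCyclotomicExtension.fromZetaAut_spec hζ hirr
  have h2 := IsCyclotomicExtension.fromZetaAut_spec (hζ.pow_of_coprime a ha) hirr
  have h3 : (IsCyclotomicExtension.fromZetaAut hζ hirr).symm ζ =
      IsCyclotomicExtension.zeta l ℚ K := by
    rw [AlgEquiv.symm_apply_eq, h1]
  change IsCyclotomicExtension.fromZetaAut (hζ.pow_of_coprime a ha) hirr
    ((IsCyclotomicExtension.fromZetaAut hζ hirr).symm ζ) = _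
  rw [h3, h2]

theorem half_case {ζ : K} {l : ℕ} (hl : l ≠ 0) (hζ : ζ ^ l = 1)
    (h : IsIntegral ℤ ((ζ + ζ⁻¹) / 2)) : ζ + ζ⁻¹ = 0 ∨ (ζ + ζ⁻¹) ^ 2 = 4 := by
  by_cases h0 : (ζ + ζ⁻¹) / 2 = 0
  · left
    simpa using h0
  right
  have hn : ∀ φ : K →+* ℂ, ‖φ ζ‖ = 1 := fun φ =>
    Complex.norm_eq_one_of_pow_eq_one (by rw [← map_pow, hζ, map_one]) hl
  obtain ⟨n, hn0, hn1⟩ := Embeddings.pow_eq_one_of_norm_le_one K ℂ h0 h fun φ => by
    rw [map_div₀, map_add, map_inv₀, map_ofNat, norm_div, Complex.norm_ofNat,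
      div_le_one (by norm_num)]
    refine (norm_add_le _ _).trans ?_
    rw [norm_inv, hn φ]
    norm_num
  let φ : K →+* ℂ := (IsAlgClosed.lift (R := ℚ) (S := K) (M := ℂ)).toRingHom
  have h1 : ‖φ ((ζ + ζ⁻¹) / 2)‖ = 1 :=
    Complex.norm_eq_one_of_pow_eq_one (by rw [← map_pow, hn1, map_one]) hn0.ne'
  apply φ.injective
  rw [map_div₀, map_add, map_inv₀, map_ofNat, norm_div, Complex.norm_ofNat,
    Complex.inv_eq_conj (hn φ), Complex.add_conj, Complex.norm_real, Real.norm_eq_abs,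
    div_eq_one_iff_eq (by norm_num)] at h1
  rw [map_pow, map_add, map_inv₀, map_ofNat, Complex.inv_eq_conj (hn φ), Complex.add_conj,
    ← Complex.ofReal_pow, ← sq_abs, h1]
  norm_num

/-- `m - ζ - ζ⁻¹` with `m` odd is a square in a cyclotomic field only for very small orders -/
theorem cyclo {l : ℕ} [NeZero l] [IsCyclotomicExtension {l} ℚ K] {ζ : K}
    (hζ : IsPrimitiveRoot ζ l) (γ : K) (hγ : IsIntegral ℤ γ) (m : ℤ) (hm : Odd m)
    (h : γ ^ 2 = m - (ζ + ζ⁻¹)) :
    (∃ b : ℤ, ζ + ζ⁻¹ = b) ∨ (ζ + ζ⁻¹) ^ 2 + (ζ + ζ⁻¹) - 1 = 0 ∨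
      (ζ + ζ⁻¹) ^ 2 - (ζ + ζ⁻¹) - 1 = 0 := by
  have htop := IsCyclotomicExtension.Rat.adjoin_singleton_eq_top hζ
  have hl0 : l ≠ 0 := NeZero.ne l
  have hζ0 : ζ ≠ 0 := hζ.ne_zero hl0
  set Z : 𝓞 K := hζ.toInteger with hZ
  have hZc : (Z : K) = ζ := rfl
  let g : 𝓞 K := ⟨γ, hγ⟩
  have hgc : (g : K) = γ := rfl
  have hinv : ζ⁻¹ = ζ ^ (l - 1) := by
    apply inv_eq_of_mul_eq_one_right
    rw [← pow_succ', Nat.sub_add_cancel (Nat.pos_of_ne_zero hl0), hζ.pow_eq_one]
  have h2 : (2 : 𝓞 K) ≠ 0 := two_ne_zero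
  have key : ∀ (e : ℤ) (ξ : 𝓞 K) (l' a : ℕ), (e = 1 ∨ e = -1) → Odd l' → Z = e * ξ → ξ ^ l' = 1 →
      a.Coprime l → Z ^ a = e * Z ^ 2 →
      (∃ b : ℤ, ζ + ζ⁻¹ = b) ∨ (ζ + ζ⁻¹) ^ 2 + (ζ + ζ⁻¹) - 1 = 0 ∨
        (ζ + ζ⁻¹) ^ 2 - (ζ + ζ⁻¹) - 1 = 0 := by
    intro e ξ l' a he hl' hξ hξl ha hZa
    obtain ⟨σ, hσ⟩ := exists_aut hζ ha
    let s : 𝓞 K ≃+* 𝓞 K := RingOfIntegers.mapRingEquiv σ
    have hs : s Z = e * Z ^ 2 := by
      rw [← hZa]
      apply RingOfIntegers.ext
      rw [RingOfIntegers.mapRingEquiv_apply, hZc, hσ]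
      rfl
    have he2 : (e : 𝓞 K) ^ 2 = 1 := by rcases he with rfl | rfl <;> simp
    have hsξ : s ξ = ξ ^ 2 := by
      have a1 : s Z = e * s ξ := by rw [hξ, map_mul, map_intCast]
      rw [hs, hξ] at a1
      linear_combination (-(e : 𝓞 K)) * a1 - (s ξ - (e ^ 2 + 1) * ξ ^ 2) * he2
    obtain ⟨j, hj⟩ := hl'
    have hθ2 : (ξ ^ (j + 1)) ^ 2 = ξ := by
      rw [← pow_mul, show (j + 1) * 2 = l' + 1 by omega, pow_succ, hξl, one_mul]
    have hθ' : ξ ^ (j + 1) * ξ ^ j = 1 := by
      rw [← pow_add, show j + 1 + j = l' by omega, hξl]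
    have hfr := frob_all (s : 𝓞 K →+* 𝓞 K) Z htop (by
      change (2 : 𝓞 K) ∣ Z ^ 2 - s Z
      rw [hs]
      rcases he with rfl | rfl
      · simp
      · exact ⟨Z ^ 2, by push_cast; ring⟩) g
    have hζe : ζ = e * (ξ : K) := by
      have := congrArg (algebraMap (𝓞 K) K) hξ
      rw [map_mul, map_intCast] at this
      exact this
    have hinve : ζ⁻¹ = e * ((ξ : K) ^ j) ^ 2 := by
      apply inv_eq_of_mul_eq_one_right
      have a1 := congrArg (algebraMap (𝓞 K) K) he2
      have a2 := congrArg (algebraMap (𝓞 K) K) hξl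
      simp only [map_pow, map_intCast, map_one] at a1 a2
      rw [hj] at a2
      rw [hζe]
      change (ξ : K) ^ (2 * j + 1) = 1 at a2
      linear_combination (ξ : K) ^ (2 * j + 1) * a1 + a2
    have hres := odd_case (fun n hn => odd_not_dvd n hn) h2 s (ξ ^ (j + 1)) (ξ ^ j) g l' ⟨j, hj⟩
      (by rw [← pow_mul, mul_comm, pow_mul, hξl, one_pow]) hθ'
      (by rw [map_pow, hsξ, ← pow_mul, ← pow_mul, mul_comm]) hfr m hm (by
        rw [hθ2]
        rw [hinve] at h
        rw [hζe] at h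
        rcases he with rfl | rfl
        · left
          apply RingOfIntegers.ext
          change γ ^ 2 = (m : 𝓞 K) - ((ξ : K) + ((ξ : K) ^ j) ^ 2)
          simpa using h
        · right
          apply RingOfIntegers.ext
          change γ ^ 2 = (m : 𝓞 K) + ((ξ : K) + ((ξ : K) ^ j) ^ 2)
          rw [h]
          simp
          ring)
    have hpow : ∀ n : ℕ, (ξ ^ (j + 1)) ^ n = 1 → (ξ : K) ^ n = 1 := by
      intro n hn
      have : ξ ^ n = 1 := by
        rw [← hθ2, ← pow_mul, mul_comm, pow_mul, hn, one_pow]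
      simpa using congrArg (algebraMap (𝓞 K) K) this
    have hξ0 : (ξ : K) ≠ 0 := by
      intro h0
      rw [h0, mul_zero] at hζe
      exact hζ0 hζe
    have hβ : ζ + ζ⁻¹ = e * ((ξ : K) + (ξ : K)⁻¹) := by
      rw [hζe]
      rcases he with rfl | rfl <;> simp
      ring
    rw [hβ]
    by_cases h1 : (ξ : K) = 1
    · left
      exact ⟨e * 2, by rw [h1]; push_cast; ring⟩
    have h1' : (ξ : K) - 1 ≠ 0 := sub_ne_zero.2 h1
    rcases hres with h3 | h5
    · left
      have a1 : (ξ : K) ^ 2 + ξ + 1 = 0 :=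
        mul_left_cancel₀ h1' (by linear_combination hpow 3 h3)
      have a2 : (ξ : K) + (ξ : K)⁻¹ = -1 := by
        field_simp
        linear_combination a1
      exact ⟨-e, by rw [a2]; push_cast; ring⟩
    · right
      have a1 : (ξ : K) ^ 4 + (ξ : K) ^ 3 + (ξ : K) ^ 2 + ξ + 1 = 0 :=
        mul_left_cancel₀ h1' (by linear_combination hpow 5 h5)
      have a2 : ((ξ : K) + (ξ : K)⁻¹) ^ 2 + ((ξ : K) + (ξ : K)⁻¹) - 1 = 0 := by
        field_simp
        linear_combination a1
      rcases he with rfl | rfl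
      · left
        push_cast
        linear_combination a2
      · right
        push_cast
        linear_combination a2
  have hZl : Z ^ l = 1 := by
    apply RingOfIntegers.ext
    exact hζ.pow_eq_one
  rcases Nat.even_or_odd l with ⟨l', hl'⟩ | hl
  · have hneg : Z ^ l' = -1 := by
      apply RingOfIntegers.ext
      change ζ ^ l' = -1
      exact (hζ.pow (NeZero.pos l) (a := l') (b := 2) (by omega)).eq_neg_one_of_two_right
    rcases Nat.even_or_odd l' with ⟨l'', hl''⟩ | hl2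
    · have hcop : (1 + l').Coprime l := by
        rw [hl', ← two_mul, Nat.coprime_mul_iff_right]
        refine ⟨Nat.coprime_two_right.2 ⟨l'', by omega⟩, ?_⟩
        simp
      obtain ⟨τ, hτ⟩ := exists_aut hζ hcop
      let t : 𝓞 K ≃+* 𝓞 K := RingOfIntegers.mapRingEquiv τ
      have ht : t Z = -Z := by
        have : t Z = Z ^ (1 + l') := by
          apply RingOfIntegers.ext
          rw [RingOfIntegers.mapRingEquiv_apply, hZc, hτ]
          rfl
        rw [this, pow_add, hneg]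
        ring
      obtain ⟨y, hy⟩ := neg_all (t : 𝓞 K →+* 𝓞 K) Z htop ⟨Z, by
        change Z - t Z = _
        rw [ht]; ring⟩ g
      have hy' : γ - τ γ = 2 * (y : K) := congrArg (algebraMap (𝓞 K) K) hy
      have hτζ : τ ζ = -ζ := congrArg (algebraMap (𝓞 K) K) ht
      have hτh : τ γ ^ 2 = m + (ζ + ζ⁻¹) := by
        have := congrArg τ h
        rw [map_pow, map_sub, map_add, map_inv₀, map_intCast, hτζ, inv_neg] at this
        linear_combination this
      have hint : IsIntegral ℤ ((ζ + ζ⁻¹) / 2) := by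
        have e : (ζ + ζ⁻¹) / 2 = -((y : K) * (γ - y)) := by
          have : τ γ = γ - 2 * y := by linear_combination -hy'
          rw [this] at hτh
          linear_combination (1 / 4 : K) * h - (1 / 4 : K) * hτh
        rw [e]
        exact (y.isIntegral_coe.mul (hγ.sub y.isIntegral_coe)).neg
      left
      rcases half_case hl0 hζ.pow_eq_one hint with h0 | h4
      · exact ⟨0, by simpa using h0⟩
      · have : (ζ + ζ⁻¹ - 2) * (ζ + ζ⁻¹ + 2) = 0 := by linear_combination h4
        rcases mul_eq_zero.1 this with h' | h'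
        · exact ⟨2, by push_cast; linear_combination h'⟩
        · exact ⟨-2, by push_cast; linear_combination h'⟩
    · refine key (-1) (-Z) l' (2 + l') (Or.inr rfl) hl2 (by simp) ?_ ?_ ?_
      · rw [hl2.neg_pow, hneg, neg_neg]
      · rw [hl', ← two_mul, Nat.coprime_mul_iff_right]
        refine ⟨Nat.coprime_two_right.2 (by obtain ⟨j, hj⟩ := hl2; exact ⟨j + 1, by omega⟩),
          ?_⟩
        simpa using hl2
      · rw [pow_add, hneg]
        push_cast
        ring
  · exact key 1 Z l 2 (Or.inl rfl) hl (by simp) hZl (Nat.coprime_two_left.2 hl) (by simp)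

end field

end Pool.Agent.MP_45e593_co

end

section

open Polynomial NumberField IntermediateField

namespace Pool.Agent.MP_45e593_co

theorem even_odd_split {L : Type*} [Field L] [Algebra ℚ L] (F : IntermediateField ℚ L) (γ : L)
    (h : γ ^ 2 ∈ F) (p : ℚ[X]) :
    ∃ a ∈ F, ∃ b ∈ F, aeval γ p = a + b * γ ∧ aeval (-γ) p = a - b * γ := by
  induction p using Polynomial.induction_on with
  | C c => exact ⟨algebraMap ℚ L c, F.algebraMap_mem c, 0, F.zero_mem, by simp, by simp⟩
  | add p q hp hq =>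
    obtain ⟨a, ha, b, hb, h1, h2⟩ := hp
    obtain ⟨a', ha', b', hb', h1', h2'⟩ := hq
    exact ⟨a + a', F.add_mem ha ha', b + b', F.add_mem hb hb', by rw [map_add, h1, h1']; ring,
      by rw [map_add, h2, h2']; ring⟩
  | monomial n c hp =>
    obtain ⟨a, ha, b, hb, h1, h2⟩ := hp
    refine ⟨b * γ ^ 2, F.mul_mem hb h, a, ha, ?_, ?_⟩
    · rw [pow_succ, ← mul_assoc, map_mul, h1, aeval_X]; ring
    · rw [pow_succ, ← mul_assoc, map_mul, h2, aeval_X]; ring

theorem mem_of_neg_not_root {L : Type*} [Field L] [CharZero L] (F : IntermediateField ℚ L) (γ : L)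
    (h : γ ^ 2 ∈ F) (hneg : aeval (-γ) (minpoly ℚ γ) ≠ 0) : γ ∈ F := by
  obtain ⟨a, ha, b, hb, h1, h2⟩ := even_odd_split F γ h (minpoly ℚ γ)
  rw [minpoly.aeval] at h1
  have hb0 : b ≠ 0 := by
    rintro rfl
    apply hneg
    rw [h2]
    linear_combination -h1
  have : γ = -a / b := by
    field_simp
    linear_combination -h1
  rw [this]
  exact F.div_mem (F.neg_mem ha) hb

theorem quad_rep {L : Type*} [Field L] [CharZero L] (β : L) (u v : ℚ)
    (h : β ^ 2 = u + v * β) (x : L) (hx : x ∈ ℚ⟮β⟯) : ∃ a b : ℚ, x = a + b * β := by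
  have halg : IsAlgebraic ℚ β := by
    refine ⟨X ^ 2 - (C v * X + C u), (monic_X_pow_sub ?_).ne_zero, ?_⟩
    · exact degree_linear_lt
    · simp [h]
      ring
  have hx' : x ∈ Algebra.adjoin ℚ {β} := by
    rw [← adjoin_simple_toSubalgebra_of_isAlgebraic halg]
    exact hx
  clear hx
  induction hx' using Algebra.adjoin_induction with
  | mem y hy => exact ⟨0, 1, by simp [Set.mem_singleton_iff.1 hy]⟩
  | algebraMap n => exact ⟨n, 0, by simp⟩
  | add y z _ _ hy hz =>
    obtain ⟨a, b, h1⟩ := hy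
    obtain ⟨c, d, h2⟩ := hz
    exact ⟨a + c, b + d, by rw [h1, h2]; push_cast; ring⟩
  | mul y z _ _ hy hz =>
    obtain ⟨a, b, h1⟩ := hy
    obtain ⟨c, d, h2⟩ := hz
    exact ⟨a * c + b * d * u, a * d + b * c + b * d * v, by
      rw [h1, h2]; push_cast; linear_combination (b * d : L) * h⟩

theorem norm_one_of_quad (z : ℂ) (b : ℝ) (hb : |b| ≤ 2) (h : z ^ 2 - b * z + 1 = 0) : ‖z‖ = 1 := by
  have h1 := congrArg Complex.re h
  have h2 := congrArg Complex.im h
  simp [pow_two] at h1 h2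
  have h3 : z.re ^ 2 + z.im ^ 2 = 1 := by
    by_cases hy : z.im = 0
    · rw [hy] at h1 ⊢
      have hb2 : b ^ 2 ≤ 4 := by nlinarith [abs_le.1 hb]
      have : (z.re - b / 2) ^ 2 = 0 := by nlinarith [sq_nonneg (z.re - b / 2)]
      have : z.re = b / 2 := by nlinarith
      nlinarith
    · have : b = 2 * z.re := mul_right_cancel₀ hy (by linarith)
      rw [this] at h1
      linarith
  have h4 : ‖z‖ ^ 2 = 1 := by rw [Complex.sq_norm, Complex.normSq_apply]; linarith
  nlinarith [norm_nonneg z]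

theorem golden (m : ℤ) (h3 : 3 ≤ m) (e : ℤ) (he : e = 1 ∨ e = -1) (w : ℚ)
    (h : w ^ 2 = m ^ 2 + e * m - 1) : False := by
  have h1 : IsSquare ((m ^ 2 + e * m - 1 : ℤ) : ℚ) := ⟨w, by push_cast; rw [← h]; ring⟩
  obtain ⟨s, hs⟩ := Rat.isSquare_intCast_iff.1 h1
  have h2 : |s| * |s| = m ^ 2 + e * m - 1 := by rw [abs_mul_abs_self, hs]
  have h0 := abs_nonneg s
  rcases he with rfl | rfl
  · rcases le_or_gt |s| m with h4 | h4 <;> nlinarith
  · rcases le_or_gt m |s| with h4 | h4 <;> nlinarith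

theorem key (γ : ℂ) (hγ : IsIntegral ℤ γ) (m : ℤ) (hm : Odd m) (h3 : 3 ≤ m)
    (hconj : ∀ z : ℂ, aeval z (minpoly ℚ γ) = 0 → ∃ b : ℝ, |b| ≤ 2 ∧ z ^ 2 = m - b)
    (hneg : aeval (-γ) (minpoly ℚ γ) ≠ 0) : ∃ c : ℤ, γ = c := by
  set β : ℂ := m - γ ^ 2 with hβ
  have hβi : IsIntegral ℤ β := (isIntegral_algebraMap (x := m)).sub (hγ.pow 2)
  obtain ⟨s, hs⟩ := IsAlgClosed.exists_pow_nat_eq (β ^ 2 - 4) (n := 2) (by norm_num)
  set ζ : ℂ := (β + s) / 2 with hζ
  have hq : ζ ^ 2 - β * ζ + 1 = 0 := by rw [hζ]; linear_combination (1 / 4 : ℂ) * hs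
  have hζ0 : ζ ≠ 0 := by
    intro h0
    rw [h0] at hq
    simp at hq
  have hsum : ζ + ζ⁻¹ = β := by
    field_simp
    linear_combination hq
  have hζi : IsIntegral ℤ ζ := by
    refine isIntegral_trans (A := integralClosure ℤ ℂ) ζ
      ⟨X ^ 2 - (C ⟨β, hβi⟩ * X + C (-1)), monic_X_pow_sub degree_linear_lt, ?_⟩
    simp only [eval₂_sub, eval₂_pow, eval₂_X, eval₂_add, eval₂_mul, eval₂_C, map_neg, map_one,
      eval₂_neg, eval₂_one]
    change ζ ^ 2 - (β * ζ + -1) = 0
    linear_combination hq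
  have hζq : IsIntegral ℚ ζ := hζi.tower_top
  have hγβ : γ ∈ ℚ⟮β⟯ := by
    refine mem_of_neg_not_root _ γ ?_ hneg
    have : γ ^ 2 = m - β := by rw [hβ]; ring
    rw [this]
    exact sub_mem (intCast_mem _ m) (mem_adjoin_simple_self ℚ β)
  have hβζ : β ∈ ℚ⟮ζ⟯ := by
    rw [← hsum]
    exact add_mem (mem_adjoin_simple_self ℚ ζ) (inv_mem (mem_adjoin_simple_self ℚ ζ))
  have hγζ : γ ∈ ℚ⟮ζ⟯ := (adjoin_simple_le_iff.2 hβζ) hγβ
  have hfd : FiniteDimensional ℚ ℚ⟮ζ⟯ := adjoin.finiteDimensional hζq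
  have hnf : NumberField ℚ⟮ζ⟯ := {}
  let Z : ℚ⟮ζ⟯ := ⟨ζ, mem_adjoin_simple_self ℚ ζ⟩
  let g : ℚ⟮ζ⟯ := ⟨γ, hγζ⟩
  have hZi : IsIntegral ℤ Z :=
    (isIntegral_algHom_iff (ℚ⟮ζ⟯.val.restrictScalars ℤ) Subtype.val_injective).1 hζi
  have hgi : IsIntegral ℤ g :=
    (isIntegral_algHom_iff (ℚ⟮ζ⟯.val.restrictScalars ℤ) Subtype.val_injective).1 hγ
  have hqK : Z ^ 2 - (m - g ^ 2) * Z + 1 = 0 := Subtype.val_injective hq
  obtain ⟨n, hn0, hn⟩ := Embeddings.pow_eq_one_of_norm_eq_one ℚ⟮ζ⟯ ℂ hZi fun φ => by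
    have a1 : aeval (φ g) (minpoly ℚ γ) = 0 := by
      have : minpoly ℚ γ = minpoly ℚ g := (IntermediateField.minpoly_eq g).symm
      rw [this]
      have := aeval_algHom_apply φ.toRatAlgHom g (minpoly ℚ g)
      rw [minpoly.aeval, map_zero] at this
      exact this
    obtain ⟨b, hb, hb2⟩ := hconj _ a1
    refine norm_one_of_quad _ b hb ?_
    have := congrArg φ hqK
    simp only [map_add, map_sub, map_mul, map_pow, map_intCast, map_one, map_zero] at this
    linear_combination this - φ Z * hb2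
  have hn' : ζ ^ n = 1 := congrArg Subtype.val hn
  have hfin : IsOfFinOrder ζ := isOfFinOrder_iff_pow_eq_one.2 ⟨n, hn0, hn'⟩
  have hne : NeZero (orderOf ζ) := ⟨hfin.orderOf_pos.ne'⟩
  have hprim : IsPrimitiveRoot ζ (orderOf ζ) := IsPrimitiveRoot.orderOf ζ
  have hcyc : IsCyclotomicExtension {orderOf ζ} ℚ ℚ⟮ζ⟯ := by
    change IsCyclotomicExtension {orderOf ζ} ℚ (ℚ⟮ζ⟯).toSubalgebra
    rw [adjoin_simple_toSubalgebra_of_isAlgebraic hζq.isAlgebraic]
    exact hprim.adjoin_isCyclotomicExtension ℚ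
  have hprimK : IsPrimitiveRoot Z (orderOf ζ) := IsPrimitiveRoot.coe_submonoidClass_iff.mp hprim
  have hc := cyclo hprimK g hgi m hm (Subtype.val_injective (by
    change γ ^ 2 = m - (ζ + ζ⁻¹)
    rw [hsum, hβ]
    ring))
  have hrat : ∃ a : ℚ, γ = a := by
    have gold : ∀ e : ℤ, (e = 1 ∨ e = -1) → β ^ 2 + e * β - 1 = 0 → ∃ a : ℚ, γ = a := by
      intro e he hb
      obtain ⟨a, b, hab⟩ := quad_rep β 1 (-e) (by push_cast; linear_combination hb) γ hγβ
      have e1 : ((a ^ 2 + b ^ 2 - m : ℚ) : ℂ) + ((2 * a * b - e * b ^ 2 + 1 : ℚ) : ℂ) * β = 0 := by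
        have : γ ^ 2 = m - β := by rw [hβ]; ring
        rw [hab] at this
        push_cast
        linear_combination this - (b : ℂ) ^ 2 * hb
      by_cases h0 : (2 * a * b - e * b ^ 2 + 1 : ℚ) = 0
      · exfalso
        rw [h0] at e1
        have h1 : (a ^ 2 + b ^ 2 - m : ℚ) = 0 := by
          rw [Rat.cast_zero, zero_mul, add_zero] at e1
          exact_mod_cast e1
        have he2 : (e : ℚ) ^ 2 = 1 := by rcases he with rfl | rfl <;> norm_num
        refine golden m h3 e he (a ^ 2 - e * a * b - b ^ 2) ?_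
        have hm' : (m : ℚ) = a ^ 2 + b ^ 2 := by linarith
        rw [hm']
        linear_combination (-(e * (a ^ 2 + b ^ 2)) - (2 * a * b - e * b ^ 2 - 1)) * h0 +
          (a ^ 2 * b ^ 2 - (a ^ 2 + b ^ 2) * b ^ 2 + b ^ 4) * he2
      · have h0' : ((2 * a * b - e * b ^ 2 + 1 : ℚ) : ℂ) ≠ 0 := by exact_mod_cast h0
        refine ⟨a + b * (-(a ^ 2 + b ^ 2 - m) / (2 * a * b - e * b ^ 2 + 1)), ?_⟩
        have : β = -((a ^ 2 + b ^ 2 - m : ℚ) : ℂ) / ((2 * a * b - e * b ^ 2 + 1 : ℚ) : ℂ) := by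
          rw [eq_div_iff h0']
          linear_combination e1
        rw [hab, this]
        push_cast
        ring
    rcases hc with ⟨b, hb⟩ | hb | hb
    · have hb' : β = b := by
        rw [← hsum]
        exact congrArg Subtype.val hb
      obtain ⟨a, c, hac⟩ := quad_rep β 0 b (by rw [hb']; push_cast; ring) γ hγβ
      exact ⟨a + c * b, by rw [hac, hb']; push_cast; ring⟩
    · refine gold 1 (Or.inl rfl) ?_
      rw [← hsum]
      have := congrArg Subtype.val hb
      push_cast at this ⊢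
      linear_combination this
    · refine gold (-1) (Or.inr rfl) ?_
      rw [← hsum]
      have := congrArg Subtype.val hb
      push_cast at this ⊢
      linear_combination this
  obtain ⟨a, ha⟩ := hrat
  have hai : IsIntegral ℤ a := by
    rw [← isIntegral_algebraMap_iff (algebraMap ℚ ℂ).injective]
    rw [ha] at hγ
    exact hγ
  obtain ⟨y, hy⟩ := IsIntegrallyClosed.isIntegral_iff.1 hai
  exact ⟨y, by rw [ha, ← hy]; simp⟩

theorem mult_symm (P : ℚ[X]) (hP : P ≠ 0) (γ : ℝ) (hγ : IsIntegral ℚ γ)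
    (h : aeval (-γ) (minpoly ℚ γ) = 0) :
    rootMultiplicity γ (P.map (algebraMap ℚ ℝ)) = rootMultiplicity (-γ) (P.map (algebraMap ℚ ℝ)) := by
  have hirr := minpoly.irreducible hγ
  have hmin : minpoly ℚ γ = minpoly ℚ (-γ) :=
    minpoly.eq_of_irreducible_of_monic hirr h (minpoly.monic hγ)
  obtain ⟨n, Q, hQ, rfl⟩ := WfDvdMonoid.max_power_factor hP hirr
  have hsep : ((minpoly ℚ γ).map (algebraMap ℚ ℝ)).Separable := hirr.separable.map
  have hg0 : (minpoly ℚ γ).map (algebraMap ℚ ℝ) ≠ 0 := map_ne_zero hirr.ne_zero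
  have hQ0 : Q.map (algebraMap ℚ ℝ) ≠ 0 := map_ne_zero (right_ne_zero_of_mul hP)
  have aux : ∀ x : ℝ, minpoly ℚ γ = minpoly ℚ x → ∀ n : ℕ,
      rootMultiplicity x (((minpoly ℚ γ) ^ n * Q).map (algebraMap ℚ ℝ)) = n := by
    intro x hx n
    induction n with
    | zero =>
      rw [pow_zero, one_mul]
      apply rootMultiplicity_eq_zero
      intro hr
      apply hQ
      rw [hx]
      apply minpoly.dvd
      rwa [aeval_def, ← eval_map]
    | succ n ih =>
      rw [pow_succ', mul_assoc, Polynomial.map_mul, rootMultiplicity_mul, ih, add_comm]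
      · congr 1
        refine le_antisymm (rootMultiplicity_le_one_of_separable hsep x) ?_
        refine (rootMultiplicity_pos hg0).2 ?_
        rw [IsRoot, eval_map, ← aeval_def, hx, minpoly.aeval]
      · exact mul_ne_zero hg0 (map_ne_zero (mul_ne_zero (pow_ne_zero _ hirr.ne_zero)
          (right_ne_zero_of_mul hP)))
  rw [aux γ rfl, aux (-γ) hmin]

end Pool.Agent.MP_45e593_co

end

section

open Polynomial Matrix Finset

namespace Pool.Agent.MP_45e593_co

variable {V : Type*} [Fintype V] [DecidableEq V]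

theorem eig_bound (A B : Matrix V V ℝ) (k : ℝ) (hB : ∀ i j, 0 ≤ B i j)
    (hBrow : ∀ i, ∑ j, B i j = 2)
    (hA2 : ∀ i j, (A * A) i j = (if i = j then k - 1 else 0) + 1 - B i j)
    (w : V → ℝ) (μ : ℝ) (hw : A *ᵥ w = μ • w) (h0 : w ≠ 0) (hs : ∑ i, w i = 0) :
    |k - 1 - μ ^ 2| ≤ 2 := by
  have hne : (univ : Finset V).Nonempty := by
    by_contra hn
    exact h0 (funext fun i => (hn ⟨i, mem_univ i⟩).elim)
  obtain ⟨i, -, hi⟩ := exists_max_image univ (fun i => |w i|) hne
  have hpos : 0 < |w i| := by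
    obtain ⟨j, hj⟩ := Function.ne_iff.1 h0
    exact lt_of_lt_of_le (abs_pos.2 hj) (hi j (mem_univ j))
  have h1 : ((A * A) *ᵥ w) i = μ ^ 2 * w i := by
    rw [← mulVec_mulVec, hw, mulVec_smul, hw]
    simp [pow_two, mul_assoc]
  have h2 : ((A * A) *ᵥ w) i = (k - 1) * w i - ∑ j, B i j * w j := by
    simp only [mulVec, dotProduct, hA2, sub_mul, add_mul, ite_mul, zero_mul, one_mul,
      sum_sub_distrib, sum_add_distrib, sum_ite_eq, mem_univ, if_true, hs]
    ring
  have h3 : (k - 1 - μ ^ 2) * w i = ∑ j, B i j * w j := by linarith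
  have h4 : |∑ j, B i j * w j| ≤ 2 * |w i| := by
    refine (abs_sum_le_sum_abs _ _).trans ?_
    rw [← hBrow i, sum_mul]
    refine sum_le_sum fun j _ => ?_
    rw [abs_mul, abs_of_nonneg (hB i j)]
    exact mul_le_mul_of_nonneg_left (hi j (mem_univ j)) (hB i j)
  rw [← h3, abs_mul] at h4
  exact le_of_mul_le_mul_right h4 hpos

theorem trace_pow {A : Matrix V V ℝ} (hA : A.IsHermitian) (n : ℕ) :
    (A ^ n).trace = ∑ i, hA.eigenvalues i ^ n := by
  have h : A ^ n = Unitary.conjStarAlgAut ℝ _ hA.eigenvectorUnitary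
      (diagonal fun i => hA.eigenvalues i ^ n) := by
    conv_lhs => rw [hA.spectral_theorem, ← map_pow, diagonal_pow]
    congr 2
  rw [h, Unitary.conjStarAlgAut_apply, trace_mul_comm, ← mul_assoc]
  simp

theorem spectral [Nonempty V] (A B : Matrix V V ℤ) (k : ℤ) (hk : Even k) (h6 : 6 ≤ k)
    (hsym : ∀ i j, A i j = A j i) (htr : ∀ i, A i i = 0) (hrow : ∀ i, ∑ j, A i j = k)
    (hB : ∀ i j, 0 ≤ B i j) (hBrow : ∀ i, ∑ j, B i j = 2)
    (hA2 : ∀ i j, (A * A) i j = (if i = j then k - 1 else 0) + 1 - B i j) :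
    ∃ s p : ℤ, k + s * p = 0 ∧ |k - 1 - s ^ 2| ≤ 2 ∧
      ∀ r : ℕ, (A ^ (2 * r + 1)).trace = k ^ (2 * r + 1) + s ^ (2 * r + 1) * p := by
  classical
  set Ar : Matrix V V ℝ := A.map (Int.castRingHom ℝ) with hAr
  set Br : Matrix V V ℝ := B.map (Int.castRingHom ℝ) with hBr
  have hH : Ar.IsHermitian := by
    ext i j
    simp [hAr, hsym i j]
  have hk6 : (6 : ℝ) ≤ k := by exact_mod_cast h6
  have hrowr : ∀ i, ∑ j, Ar i j = k := fun i => by
    simp only [hAr, map_apply, eq_intCast]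
    exact_mod_cast hrow i
  have hBr0 : ∀ i j, 0 ≤ Br i j := fun i j => by
    simp only [hBr, map_apply, eq_intCast]
    exact_mod_cast hB i j
  have hBrr : ∀ i, ∑ j, Br i j = 2 := fun i => by
    simp only [hBr, map_apply, eq_intCast]
    exact_mod_cast hBrow i
  have hA2r : ∀ i j, (Ar * Ar) i j = (if i = j then (k : ℝ) - 1 else 0) + 1 - Br i j := by
    intro i j
    rw [hAr, ← Matrix.map_mul, map_apply, hA2]
    simp only [hBr, map_apply, eq_intCast]
    split_ifs <;> push_cast <;> ring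
  set lam := hH.eigenvalues with hlam
  set v : V → V → ℝ := fun i => ⇑(hH.eigenvectorBasis i) with hv
  have hev : ∀ i, Ar *ᵥ v i = lam i • v i := fun i => hH.mulVec_eigenvectorBasis i
  have hv0 : ∀ i, v i ≠ 0 := fun i =>
    (WithLp.ofLp_eq_zero 2).ne.2 <| hH.eigenvectorBasis.orthonormal.ne_zero i
  have hone : Ar *ᵥ (fun _ => (1 : ℝ)) = (k : ℝ) • fun _ => (1 : ℝ) := by
    funext i
    simp [mulVec, dotProduct, hrowr]
  have hsum : ∀ i, (lam i - k) * ∑ x, v i x = 0 := by
    intro i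
    have h1 : ∑ x, (Ar *ᵥ v i) x = k * ∑ x, v i x := by
      simp only [mulVec, dotProduct]
      rw [sum_comm, mul_sum]
      refine sum_congr rfl fun y _ => ?_
      rw [← sum_mul, ← hrowr y]
      congr 1
      exact sum_congr rfl fun x _ => by simp [hAr, hsym x y]
    rw [hev] at h1
    simp only [Pi.smul_apply, smul_eq_mul, ← mul_sum] at h1
    linarith
  have hbd : ∀ i, lam i ≠ k → |(k : ℝ) - 1 - lam i ^ 2| ≤ 2 := fun i hi =>
    eig_bound Ar Br k hBr0 hBrr hA2r (v i) _ (hev i) (hv0 i)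
      ((mul_eq_zero.1 (hsum i)).resolve_left (sub_ne_zero.2 hi))
  have hn : (0 : ℝ) < Fintype.card V := by exact_mod_cast Fintype.card_pos
  have hconst : ∀ i, lam i = k → ∃ c : ℝ, v i = fun _ => c := by
    intro i hi
    refine ⟨(∑ x, v i x) / Fintype.card V, ?_⟩
    by_contra hne
    have := eig_bound Ar Br k hBr0 hBrr hA2r
      (v i - ((∑ x, v i x) / Fintype.card V) • fun _ => (1 : ℝ)) k
      (by rw [mulVec_sub, mulVec_smul, hev, hone, hi, smul_sub, smul_comm])
      (by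
        intro h0
        apply hne
        funext x
        have := congrFun h0 x
        simpa [sub_eq_zero] using this)
      (by
        simp only [Pi.sub_apply, Pi.smul_apply, smul_eq_mul, mul_one, sum_sub_distrib, sum_const,
          card_univ, nsmul_eq_mul]
        field_simp
        ring)
    have := (abs_le.1 this).1
    nlinarith
  have huniq : ∀ i j, lam i = k → lam j = k → i = j := by
    intro i j hi hj
    by_contra hne
    obtain ⟨c, hc⟩ := hconst i hi
    obtain ⟨d, hd⟩ := hconst j hj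
    have h0 := hH.eigenvectorBasis.orthonormal.2 hne
    simp only [PiLp.inner_apply, RCLike.inner_apply, conj_trivial] at h0
    have e1 : ∀ x, hH.eigenvectorBasis i x = c := fun x => congrFun hc x
    have e2 : ∀ x, hH.eigenvectorBasis j x = d := fun x => congrFun hd x
    simp only [e1, e2, sum_const, card_univ, nsmul_eq_mul] at h0
    rcases mul_eq_zero.1 ((mul_eq_zero.1 h0).resolve_left hn.ne') with h | h
    · exact hv0 j (by rw [hd, h]; rfl)
    · exact hv0 i (by rw [hc, h]; rfl)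
  have hchar : Ar.charpoly = ∏ i, (X - C (lam i)) := hH.charpoly_eq
  have hex : ∃ i0, lam i0 = k := by
    have h1 : (Matrix.scalar V (k : ℝ) - Ar).det = 0 := by
      rw [← Matrix.exists_mulVec_eq_zero_iff]
      refine ⟨fun _ => 1, fun h => one_ne_zero (congrFun h (Classical.arbitrary V)), ?_⟩
      rw [sub_mulVec, hone]
      funext i
      simp [Matrix.scalar]
    rw [← Matrix.eval_charpoly, hchar, eval_prod, prod_eq_zero_iff] at h1
    obtain ⟨i, -, hi⟩ := h1
    exact ⟨i, by simp at hi; linarith⟩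
  obtain ⟨i0, hi0⟩ := hex
  set Pq : ℚ[X] := A.charpoly.map (Int.castRingHom ℚ) with hPq
  have hPr : Pq.map (algebraMap ℚ ℝ) = Ar.charpoly := by
    rw [hPq, Polynomial.map_map, hAr, Matrix.charpoly_map]
    congr 1
  have hPq0 : Pq ≠ 0 := (A.charpoly_monic.map _).ne_zero
  have hroot : ∀ i, aeval (lam i) Pq = 0 := by
    intro i
    rw [aeval_def, ← eval_map, hPr, hchar, eval_prod]
    exact prod_eq_zero (mem_univ i) (by simp)
  have hint : ∀ i, IsIntegral ℤ (lam i) := by
    intro i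
    refine ⟨A.charpoly, A.charpoly_monic, ?_⟩
    have := hroot i
    rw [hPq, aeval_def, eval₂_map] at this
    rw [RingHom.ext_int (algebraMap ℤ ℝ) ((algebraMap ℚ ℝ).comp (Int.castRingHom ℚ))]
    exact this
  have hcnt : ∀ γ : ℝ, #{i | lam i = γ} = rootMultiplicity γ (Pq.map (algebraMap ℚ ℝ)) := by
    intro γ
    rw [hPr, ← count_roots, hH.roots_charpoly_eq_eigenvalues, Multiset.count_map]
    simp only [card_def, filter_val, eq_comm (a := γ)]
    rfl
  let pr : ℝ → Prop := fun γ => aeval (-γ) (minpoly ℚ γ) = 0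
  have hpair : ∀ f : ℝ → ℝ, (∀ x, f (-x) = -f x) → ∑ i with pr (lam i), f (lam i) = 0 := by
    intro f hf
    rw [sum_comp f lam]
    have hc : ∀ γ, pr γ → #{a ∈ (univ.filter fun i => pr (lam i)) | lam a = γ} =
        #{i | lam i = γ} := by
      intro γ hγ
      rw [filter_filter]
      congr 1
      exact filter_congr fun i _ => ⟨fun h => h.2, fun h => ⟨by rwa [h], h⟩⟩
    have hmem : ∀ γ ∈ image lam (univ.filter fun i => pr (lam i)), pr γ ∧ pr (-γ) ∧
        #{i | lam i = -γ} = #{i | lam i = γ} ∧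
        -γ ∈ image lam (univ.filter fun i => pr (lam i)) := by
      intro γ hγ
      obtain ⟨i, hi, rfl⟩ := mem_image.1 hγ
      have h1 : pr (lam i) := (mem_filter.1 hi).2
      have hq : IsIntegral ℚ (lam i) := (hint i).tower_top
      have h2 : pr (-lam i) := by
        change aeval (- -lam i) (minpoly ℚ (-lam i)) = 0
        rw [neg_neg, ← minpoly.eq_of_irreducible_of_monic (minpoly.irreducible hq) h1
          (minpoly.monic hq), minpoly.aeval]
      have h3 : #{j | lam j = -lam i} = #{j | lam j = lam i} := by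
        rw [hcnt, hcnt, mult_symm Pq hPq0 _ hq h1]
      refine ⟨h1, h2, h3, ?_⟩
      have : 0 < #{j | lam j = -lam i} := by
        rw [h3]
        exact card_pos.2 ⟨i, by simp⟩
      obtain ⟨j, hj⟩ := card_pos.1 this
      have hj' : lam j = -lam i := (mem_filter.1 hj).2
      exact mem_image.2 ⟨j, mem_filter.2 ⟨mem_univ _, by rwa [hj']⟩, hj'⟩
    refine sum_involution (fun γ _ => -γ) (fun γ hγ => ?_) (fun γ _ h0 he => ?_)
      (fun γ hγ => (hmem γ hγ).2.2.2) (fun γ _ => neg_neg γ)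
    · obtain ⟨h1, h2, h3, -⟩ := hmem γ hγ
      rw [hc _ h1, hc _ h2, h3, hf]
      simp
    · apply h0
      have : f γ = 0 := by
        have := hf γ
        rw [he] at this
        linarith
      rw [this, smul_zero]
  have hmk : minpoly ℚ (k : ℝ) = X - C (k : ℚ) := by
    have := minpoly.eq_X_sub_C ℝ (k : ℚ)
    simpa using this
  have hi0p : ¬ pr (lam i0) := by
    change aeval (-lam i0) (minpoly ℚ (lam i0)) ≠ 0
    rw [hi0, hmk]
    simp only [map_sub, aeval_X, aeval_C, eq_ratCast, Rat.cast_intCast]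
    linarith
  have hZ : ∀ i, ¬ pr (lam i) → i ≠ i0 → ∃ c : ℤ, lam i = c ∧ |k - 1 - c ^ 2| ≤ 2 := by
    intro i hi hne
    have hik : lam i ≠ k := fun h => hne (huniq i i0 h hi0)
    have hq : IsIntegral ℚ (lam i) := (hint i).tower_top
    have hmin : minpoly ℚ ((lam i : ℝ) : ℂ) = minpoly ℚ (lam i) :=
      minpoly.algebraMap_eq (algebraMap ℝ ℂ).injective (lam i)
    have hae : ∀ (x : ℝ) (p : ℚ[X]), aeval (x : ℂ) p = ((aeval x p : ℝ) : ℂ) := fun x p =>
      aeval_algebraMap_apply ℂ x p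
    obtain ⟨c, hc⟩ := key (lam i) ((hint i).algebraMap (B := ℂ)) (k - 1)
      (by obtain ⟨a, ha⟩ := hk; exact ⟨a - 1, by omega⟩) (by omega)
      (fun z hz => by
        rw [hmin] at hz
        have h1 : aeval z Pq = 0 := aeval_eq_zero_of_dvd_aeval_eq_zero
          (minpoly.dvd ℚ _ (hroot i)) hz
        have h2 : aeval z (Pq.map (algebraMap ℚ ℝ)) = 0 := by rwa [aeval_map_algebraMap]
        rw [hPr, hchar, map_prod, prod_eq_zero_iff] at h2
        obtain ⟨j, -, hj⟩ := h2
        have hzj : z = lam j := by simpa [sub_eq_zero] using hj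
        have hjk : lam j ≠ k := by
          intro hjk
          rw [hzj, hae, Complex.ofReal_eq_zero, hjk] at hz
          have := minpoly.eq_of_irreducible_of_monic (minpoly.irreducible hq) hz (minpoly.monic hq)
          have h3 := minpoly.aeval ℚ (lam i)
          rw [this, hmk] at h3
          apply hik
          simpa [sub_eq_zero] using h3
        exact ⟨k - 1 - lam j ^ 2, hbd j hjk, by rw [hzj]; push_cast; ring⟩)
      (by
        rw [hmin, ← Complex.ofReal_neg, hae, Complex.ofReal_ne_zero]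
        exact hi)
    have hc' : lam i = c := by exact_mod_cast hc
    refine ⟨c, hc', ?_⟩
    have := hbd i hik
    rw [hc'] at this
    exact_mod_cast this
  set T : Finset V := (univ.filter fun i => ¬ pr (lam i)).erase i0 with hT
  have hsplit : ∀ f : ℝ → ℝ, (∀ x, f (-x) = -f x) →
      ∑ i, f (lam i) = f k + ∑ i ∈ T, f (lam i) := by
    intro f hf
    rw [← sum_filter_add_sum_filter_not univ (fun i => pr (lam i)), hpair f hf, zero_add,
      ← add_sum_erase _ _ (mem_filter.2 ⟨mem_univ i0, hi0p⟩), hi0]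
  have htr0 : ∑ i, lam i = 0 := by
    have := hH.trace_eq_sum_eigenvalues
    simp only [RCLike.ofReal_real_eq_id, id] at this
    rw [← this]
    simp [trace, hAr, htr]
  have h1 := hsplit (fun x => x) fun _ => rfl
  have h3 := fun r : ℕ => hsplit (fun x => x ^ (2 * r + 1)) fun x => Odd.neg_pow ⟨r, rfl⟩ x
  have hTZ : ∀ i ∈ T, ∃ c : ℤ, lam i = c ∧ |k - 1 - c ^ 2| ≤ 2 := fun i hi =>
    hZ i (mem_filter.1 (mem_erase.1 hi).2).2 (mem_erase.1 hi).1
  obtain ⟨i1, hi1⟩ : T.Nonempty := by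
    by_contra hn
    rw [not_nonempty_iff_eq_empty.1 hn, sum_empty, htr0] at h1
    linarith
  obtain ⟨s, -, hs⟩ := hTZ i1 hi1
  have hd : ∀ i, ∃ d : ℤ, i ∈ T → lam i = s * d ∧
      ∀ r : ℕ, lam i ^ (2 * r + 1) = s ^ (2 * r + 1) * d := by
    intro i
    by_cases hi : i ∈ T
    · obtain ⟨c, hc, hc2⟩ := hTZ i hi
      have e : |c| = |s| := by
        rw [← sq_abs c] at hc2
        rw [← sq_abs s] at hs
        have a1 := abs_le.1 hc2
        have a2 := abs_le.1 hs
        have a3 := abs_nonneg c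
        have a4 := abs_nonneg s
        have a5 : 2 ≤ |c| := by by_contra hn; nlinarith
        have a6 : 2 ≤ |s| := by by_contra hn; nlinarith
        rcases lt_trichotomy |c| |s| with h | h | h
        · nlinarith
        · exact h
        · nlinarith
      rcases abs_eq_abs.1 e with h | h
      · exact ⟨1, fun _ => by rw [hc, h]; simp⟩
      · refine ⟨-1, fun _ => ?_⟩
        rw [hc, h]
        push_cast
        exact ⟨by ring, fun r => by rw [Odd.neg_pow ⟨r, rfl⟩]; ring⟩
    · exact ⟨0, fun h => (hi h).elim⟩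
  choose d hd using hd
  refine ⟨s, ∑ i ∈ T, d i, ?_, hs, ?_⟩
  · rw [htr0, sum_congr rfl fun i hi => (hd i hi).1, ← mul_sum] at h1
    exact_mod_cast h1.symm
  · intro r
    have h4 := h3 r
    rw [← trace_pow hH, sum_congr rfl fun i hi => (hd i hi).2 r, ← mul_sum, hAr,
      ← RingHom.mapMatrix_apply, ← map_pow, RingHom.mapMatrix_apply, ← AddMonoidHom.map_trace,
      eq_intCast] at h4
    exact_mod_cast h4

end Pool.Agent.MP_45e593_co

end

section

open Matrix Finset SimpleGraph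

namespace Pool.Agent.MP_45e593_co

def NoC4 {V : Type*} (G : SimpleGraph V) : Prop :=
  ∀ x y z w, x ≠ y → z ≠ w → G.Adj x z → G.Adj y z → G.Adj x w → G.Adj y w → False

theorem noC4_iff {V : Type*} (G : SimpleGraph V) : ¬ (cycleGraph 4).IsContained G ↔ NoC4 G := by
  constructor
  · intro h x y z w hxy hzw h1 h2 h3 h4
    apply h
    have a1 := h1.ne
    have a2 := h2.ne
    have a3 := h3.ne
    have a4 := h4.ne
    refine ⟨⟨⟨![x, z, y, w], ?_⟩, ?_⟩⟩
    · intro a b hab
      fin_cases a <;> fin_cases b <;>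
        first
          | exact absurd hab (by decide)
          | simp [h1, h2, h3, h4, h1.symm, h2.symm, h3.symm, h4.symm]
    · intro a b hab
      fin_cases a <;> fin_cases b <;>
        simp_all [eq_comm]
  · rintro h ⟨f⟩
    exact h (f 0) (f 2) (f 1) (f 3) (f.injective.ne (by decide)) (f.injective.ne (by decide))
      (f.toHom.map_adj (by decide)) (f.toHom.map_adj (by decide)) (f.toHom.map_adj (by decide))
      (f.toHom.map_adj (by decide))

theorem star_iff {V : Type*} [Fintype V] (H : SimpleGraph V) [DecidableRel H.Adj] (n : ℕ) :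
    (completeBipartiteGraph (Fin 1) (Fin n)).IsContained H ↔ ∃ x, n ≤ H.degree x := by
  constructor
  · rintro ⟨f⟩
    refine ⟨f (Sum.inl 0), ?_⟩
    rw [← card_neighborSet_eq_degree]
    have := Fintype.card_le_of_injective
      (fun i : Fin n => (⟨f (Sum.inr i), f.toHom.map_adj (by simp)⟩ : H.neighborSet (f (Sum.inl 0))))
      (fun i j hij => Sum.inr_injective (f.injective (congrArg Subtype.val hij)))
    rwa [Fintype.card_fin] at this
  · rintro ⟨x, hx⟩
    rw [← card_neighborSet_eq_degree] at hx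
    obtain ⟨e⟩ := Function.Embedding.nonempty_of_card_le (α := Fin n) (β := H.neighborSet x)
      (by simpa using hx)
    refine ⟨⟨⟨Sum.elim (fun _ => x) (fun i => e i), ?_⟩, ?_⟩⟩
    · rintro (a | a) (b | b) hab
      · simp at hab
      · exact (e b).2
      · exact (e a).2.symm
      · simp at hab
    · rintro (a | a) (b | b) hab
      · rw [Subsingleton.elim a b]
      · exact absurd hab (e b).2.ne
      · exact absurd hab.symm (e a).2.ne
      · rw [e.injective (Subtype.ext hab)]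

variable {V : Type*} [Fintype V] [DecidableEq V]

omit [DecidableEq V] in
theorem sq_apply (G : SimpleGraph V) [DecidableRel G.Adj] (x y : V) :
    (G.adjMatrix ℤ * G.adjMatrix ℤ) x y = #{z ∈ G.neighborFinset x | G.Adj z y} := by
  rw [adjMatrix_mul_apply]
  simp [adjMatrix_apply]

theorem sq_le_one (G : SimpleGraph V) [DecidableRel G.Adj] (h : NoC4 G) {x y : V} (hxy : x ≠ y) :
    (G.adjMatrix ℤ * G.adjMatrix ℤ) x y ≤ 1 := by
  rw [sq_apply]
  norm_cast
  refine card_le_one.2 fun z hz w hw => ?_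
  by_contra hne
  simp only [mem_filter, mem_neighborFinset] at hz hw
  exact h x y z w hxy hne hz.1 hz.2.symm hw.1 hw.2.symm

omit [DecidableEq V] in
theorem sq_row (G : SimpleGraph V) [DecidableRel G.Adj] (x : V) :
    ∑ y, (G.adjMatrix ℤ * G.adjMatrix ℤ) x y = ∑ z ∈ G.neighborFinset x, (G.degree z : ℤ) := by
  simp only [adjMatrix_mul_apply]
  rw [sum_comm]
  refine sum_congr rfl fun z _ => ?_
  simp [adjMatrix_apply, ← card_neighborFinset_eq_degree, neighborFinset_eq_filter]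

omit [DecidableEq V] in
theorem cube_even (A : Matrix V V ℤ) (hsym : ∀ i j, A i j = A j i) (htr : ∀ i, A i i = 0) (x : V) :
    Even ((A * A * A) x x) := by
  rw [even_iff_two_dvd]
  have h := (ZMod.intCast_zmod_eq_zero_iff_dvd ((A * A * A) x x) 2).1 (by
    simp only [Matrix.mul_apply, sum_mul]
    rw [← sum_product']
    push_cast
    refine sum_involution (fun p _ => p.swap) (fun p _ => ?_) (fun p _ h0 he => h0 ?_)
      (fun p _ => mem_univ _) (fun p _ => Prod.swap_swap p)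
    · simp only [Prod.fst_swap, Prod.snd_swap]
      rw [hsym x p.1, hsym p.1 p.2, hsym p.2 x]
      have : (2 : ZMod 2) = 0 := rfl
      linear_combination ((A x p.2 : ZMod 2) * A p.2 p.1 * A p.1 x) * this
    · have : p.2 = p.1 := congrArg Prod.fst he
      rw [this, htr]
      simp)
  exact_mod_cast h

theorem no_defect_two (G : SimpleGraph V) [DecidableRel G.Adj] (k : ℕ) (hk : 4 ≤ k)
    (hN : (Fintype.card V : ℤ) = k ^ 2 - k + 3) (h : NoC4 G) (hd : ∀ x, k ≤ G.degree x) :
    k = 4 ∨ k = 12 := by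
  set A := G.adjMatrix ℤ with hA
  have hk' : (4 : ℤ) ≤ k := by exact_mod_cast hk
  have hdiag : ∀ x, (A * A) x x = G.degree x := fun x => G.adjMatrix_mul_self_apply_self x
  have hreg : ∀ x, G.degree x = k := by
    intro x
    refine le_antisymm ?_ (hd x)
    have h1 : (G.degree x : ℤ) * k ≤ ∑ y, (A * A) x y := by
      rw [sq_row, ← card_neighborFinset_eq_degree, ← nsmul_eq_mul, ← sum_const]
      exact sum_le_sum fun z _ => by exact_mod_cast hd z
    have h2 : ∑ y, (A * A) x y ≤ G.degree x + (Fintype.card V - 1) := by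
      rw [← add_sum_erase _ _ (mem_univ x), hdiag]
      refine add_le_add le_rfl ((sum_le_sum fun y hy => sq_le_one G h (mem_erase.1 hy).1.symm).trans
        (le_of_eq ?_))
      rw [sum_const, card_erase_of_mem (mem_univ x), card_univ, nsmul_eq_mul, mul_one,
        Nat.cast_sub (Fintype.card_pos_iff.2 ⟨x⟩), Nat.cast_one]
    by_contra hn
    have h3 : (k : ℤ) + 1 ≤ G.degree x := by exact_mod_cast not_le.1 hn
    nlinarith
  have hne : Nonempty V := Fintype.card_pos_iff.1 (by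
    have : (0 : ℤ) < Fintype.card V := by nlinarith
    exact_mod_cast this)
  have hke : Even k := by
    have h1 := G.sum_degrees_eq_twice_card_edges
    simp only [hreg, sum_const, card_univ, smul_eq_mul] at h1
    have h2 : Even (Fintype.card V * k) := ⟨#G.edgeFinset, by omega⟩
    rcases Nat.even_mul.1 h2 with h3 | h3
    · exfalso
      have h4 : Even (Fintype.card V : ℤ) := by exact_mod_cast h3
      obtain ⟨a, ha⟩ := Int.even_mul_pred_self (k : ℤ)
      obtain ⟨b, hb⟩ := h4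
      have : (k : ℤ) ^ 2 - k = a + a := by rw [← ha]; ring
      omega
    · exact h3
  rcases hk.eq_or_lt with rfl | hk5
  · exact Or.inl rfl
  have hk6 : (6 : ℤ) ≤ k := by obtain ⟨a, ha⟩ := hke; omega
  let B : Matrix V V ℤ := fun i j => (if i = j then (k : ℤ) - 1 else 0) + 1 - (A * A) i j
  have hsym : ∀ i j, A i j = A j i := fun i j => by simp [hA, adjMatrix_apply, adj_comm]
  have htr : ∀ i, A i i = 0 := fun i => by simp [hA]
  have hrow : ∀ i, ∑ j, A i j = k := fun i => by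
    rw [← hreg i]
    simp [hA, adjMatrix_apply, ← card_neighborFinset_eq_degree, neighborFinset_eq_filter]
  have hB0 : ∀ i j, 0 ≤ B i j := by
    intro i j
    by_cases hij : i = j
    · subst hij
      simp [B, hdiag, hreg]
    · have := sq_le_one G h hij
      simp only [B, hij, if_false]
      linarith
  have hBrow : ∀ i, ∑ j, B i j = 2 := by
    intro i
    simp only [B, sum_sub_distrib, sum_add_distrib, sum_ite_eq, mem_univ, if_true, sum_const,
      card_univ, nsmul_eq_mul, mul_one]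
    rw [sq_row]
    simp only [hreg, sum_const, card_neighborFinset_eq_degree, nsmul_eq_mul]
    linarith
  obtain ⟨s, p, h1, h2, h3⟩ := spectral A B k (by exact_mod_cast hke) hk6 hsym htr hrow hB0 hBrow
    (fun i j => by simp [B])
  have hBsym : ∀ i j, B i j = B j i := by
    intro i j
    simp only [B, eq_comm (a := i), Matrix.mul_apply]
    congr 1
    exact sum_congr rfl fun l _ => by rw [hsym i l, hsym l j, mul_comm]
  by_cases hs : (k : ℤ) = s ^ 2
  · refine (Def2.square_case (A := A) (B := B) ⟨⟨hBsym, fun i => by simp [B, hdiag, hreg],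
      fun i j => ?_, hBrow⟩, hsym, htr, fun i j => ?_, hrow, fun i j => by simp [B], hN⟩
      hk6 hs h1 h3).elim
    · by_cases hij : i = j
      · subst hij
        simp [B, hdiag, hreg]
      · have a3 : 0 ≤ (A * A) i j := by rw [hA, sq_apply]; positivity
        have := hB0 i j
        simp only [B, hij, if_false] at this ⊢
        omega
    · simp only [hA, adjMatrix_apply]
      split_ifs <;> simp
  have h4 := abs_le.1 h2
  have h5 : |s| ∣ |(k : ℤ) - s ^ 2| := by
    rw [abs_dvd_abs]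
    exact ⟨-p - s, by linarith⟩
  have h6 := Int.le_of_dvd (abs_pos.2 (sub_ne_zero.2 hs)) h5
  have h7 : |(k : ℤ) - s ^ 2| ≤ 3 := abs_le.2 ⟨by linarith, by linarith⟩
  have h8 : 2 ≤ |s| := by
    by_contra hn
    have := abs_nonneg s
    rw [← sq_abs] at h4
    nlinarith
  have h9 : s ^ 2 = |s| ^ 2 := (sq_abs s).symm
  have h10 : |s| = 2 ∨ |s| = 3 := by omega
  rcases h10 with h10 | h10
  swap
  · right
    rw [h10] at h6 h9
    rw [h9] at h4 h6
    rcases le_abs.1 h6 with h | h <;> omega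
  exfalso
  rw [h10] at h9
  have hk6' : (k : ℤ) = 6 := by obtain ⟨a, ha⟩ := hke; omega
  have htr3 : (A * A * A).trace = 192 := by
    rw [← pow_three', show 3 = 2 * 1 + 1 from rfl, h3, hk6']
    have : s * p = -6 := by linarith
    linear_combination s ^ 2 * this - 6 * h9
  let c : V → ℤ := fun x => ∑ y, A x y * B x y
  have hA0 : ∀ x y, 0 ≤ A x y := fun x y => by
    simp only [hA, adjMatrix_apply]
    split_ifs <;> norm_num
  have hc : ∀ x, (A * A * A) x x = 6 - c x := by
    intro x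
    rw [Matrix.mul_apply, ← hk6', ← hrow x, ← sum_sub_distrib]
    refine sum_congr rfl fun y _ => ?_
    by_cases hxy : x = y
    · subst hxy
      simp [htr]
    · simp only [B, hxy, if_false, hsym y x]
      ring
  have hsumc : ∑ x, c x = 6 := by
    have : (A * A * A).trace = ∑ x, (6 - c x) := sum_congr rfl fun x _ => hc x
    rw [htr3, sum_sub_distrib, sum_const, card_univ, nsmul_eq_mul, hN, hk6'] at this
    linarith
  have hc0 : ∀ x, 0 ≤ c x := fun x => sum_nonneg fun y _ => mul_nonneg (hA0 x y) (hB0 x y)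
  have hce : ∀ x, Even (c x) := fun x => by
    obtain ⟨a, ha⟩ := cube_even A hsym htr x
    exact ⟨3 - a, by rw [hc] at ha; linarith⟩
  have hAB : ∀ x y, A x y * B x y ≠ 0 → G.Adj x y ∧ (A * A) x y = 0 ∧ A x y * B x y = 1 := by
    intro x y h0
    have a1 : G.Adj x y := by
      by_contra hn
      exact h0 (by simp [hA, hn])
    have a2 : A x y = 1 := by simp [hA, a1]
    have a3 : 0 ≤ (A * A) x y := by rw [hA, sq_apply]; positivity
    have a4 := hB0 x y
    rw [a2, one_mul] at h0 ⊢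
    simp only [B, a1.ne, if_false] at h0 a4 ⊢
    exact ⟨a1, by omega, by omega⟩
  have hoth : ∀ x y, A x y * B x y ≠ 0 → 2 ≤ c x ∧ ∃ z, z ≠ y ∧ A x z * B x z ≠ 0 := by
    intro x y h0
    have a1 := (hAB x y h0).2.2
    have a2 : c x = 1 + ∑ z ∈ univ.erase y, A x z * B x z := by
      rw [← a1]
      exact (add_sum_erase _ _ (mem_univ y)).symm
    have a3 : 0 ≤ ∑ z ∈ univ.erase y, A x z * B x z :=
      sum_nonneg fun z _ => mul_nonneg (hA0 x z) (hB0 x z)
    obtain ⟨b, hb⟩ := hce x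
    refine ⟨by omega, ?_⟩
    obtain ⟨z, hz, hz0⟩ := exists_ne_zero_of_sum_ne_zero
      (s := univ.erase y) (f := fun z => A x z * B x z) (by omega)
    exact ⟨z, (mem_erase.1 hz).1, hz0⟩
  have hsw : ∀ x y, A x y * B x y ≠ 0 → A y x * B y x ≠ 0 := fun x y h0 => by
    rwa [hsym y x, hBsym y x]
  obtain ⟨x, -, hx⟩ := exists_ne_zero_of_sum_ne_zero (s := univ) (f := c) (by omega)
  obtain ⟨y, -, hy⟩ := exists_ne_zero_of_sum_ne_zero hx
  obtain ⟨cx, z, hzy, hz⟩ := hoth x y hy
  obtain ⟨cy, y', hy'x, hy'⟩ := hoth y x (hsw _ _ hy)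
  have cz := (hoth z x (hsw _ _ hz)).1
  have cy' := (hoth y' y (hsw _ _ hy')).1
  have axy := (hAB x y hy).1
  have axz := (hAB x z hz).1
  have ayy' := (hAB y y' hy').1
  by_cases hzz : y' = z
  · subst hzz
    have := (hAB y y' hy').2.1
    rw [hA, sq_apply] at this
    have h0 : #{w ∈ G.neighborFinset y | G.Adj w y'} = 0 := by exact_mod_cast this
    rw [card_eq_zero] at h0
    have : x ∈ ({w ∈ G.neighborFinset y | G.Adj w y'} : Finset V) := by
      simp [axy.symm, axz]
    rw [h0] at this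
    simp at this
  · have := sum_le_sum_of_subset_of_nonneg (f := c) (subset_univ {x, y, z, y'})
      fun i _ _ => hc0 i
    rw [sum_insert (by simp [axy.ne, axz.ne, hy'x.symm]),
      sum_insert (by simp [hzy.symm, ayy'.ne]), sum_pair (Ne.symm hzz)] at this
    linarith

theorem upper_mem (m : ℕ) (hm : 4 ≤ m) (h11 : m ≠ 11)
    (F : SimpleGraph (Fin (m ^ 2 + m + 3))) :
    (cycleGraph 4).IsContained F ∨
      (completeBipartiteGraph (Fin 1) (Fin (m ^ 2 + 2))).IsContained Fᶜ := by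
  classical
  by_contra hn
  rw [not_or, noC4_iff, star_iff, not_exists] at hn
  rcases no_defect_two F (m + 1) (by omega) (by simp; ring) hn.1 (fun x => by
    have := hn.2 x
    rw [degree_compl, Fintype.card_fin] at this
    omega) with h | h <;> omega

theorem ramsey_upper (m : ℕ) (hm : 4 ≤ m) (h11 : m ≠ 11) :
    ramsey (cycleGraph 4) (completeBipartiteGraph (Fin 1) (Fin (m ^ 2 + 2))) ≤ m ^ 2 + m + 3 :=
  Nat.sInf_le ⟨by omega, upper_mem m hm h11⟩

end Pool.Agent.MP_45e593_co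

end
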